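import Pool.Agent.H75.OM.TC

/-!
# Row ALF of the board `omn_modules`: every function has circuits
-/

set_option autoImplicit false

namespace Pool.Agent.H88.OMN

open Finset Pool.Agent.H6.NB Pool.Agent.H70.OQ Pool.Agent.H70.EH Pool.Agent.H70.EI
open Pool.Agent.H78.XQ Pool.Agent.H75.OM

theorem cm_mono {n s s' : ℕ} {f : List Bool → Bool} (h : s ≤ s') (hf : Cm n s f) :
    Cm n s' f := by
  obtain ⟨C, h1, h2, h3, h4⟩ := hf
  exact ⟨C, h1, h2, h3.trans h, h4⟩

theorem cm_congr {n s : ℕ} {f g : List Bool → Bool} (h : ∀ x, x.length = n → f x = g x)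
    (hf : Cm n s f) : Cm n s g := by
  obtain ⟨C, h1, h2, h3, h4⟩ := hf
  exact ⟨C, h1, h2, h3, fun x hx => (h4 x hx).trans (h x hx)⟩

theorem map_getD (l : ℕ) (a : Bool) (y : List Bool) (hy : y.length = l) :
    ((List.range l).map fun j => (a :: y).getD (j + 1) false) = y := by
  refine List.ext_getElem (by rw [List.length_map, List.length_range, hy]) fun i h1 h2 => ?_
  rw [List.getElem_map, List.getElem_range, List.getD_cons_succ,
    List.getD_eq_getElem _ _ h2]

theorem alf_aux (h1 : T_CMC) (h2 : Pool.Agent.H75.OM.T_CMB) : ∀ (l : ℕ) (f : List Bool → Bool),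
    ∃ c, c + 4 * l + 14 ≤ 2 ^ (l + 4) ∧ Cm l c f := by
  obtain ⟨hproj, hconst, -, -, -, -, hif⟩ := h2
  intro l
  induction l with
  | zero =>
    intro f
    refine ⟨2, by norm_num, cm_congr (fun x hx => ?_) (hconst 0 (f []))⟩
    rw [List.length_eq_zero_iff.1 hx]
  | succ l ih =>
    intro f
    obtain ⟨c1, hc1, g1⟩ := ih fun x => f (true :: x)
    obtain ⟨c0, hc0, g0⟩ := ih fun x => f (false :: x)
    have b1 := h1 (l + 1) l c1 (fun _ => 2) (fun x => f (true :: x))
      (fun j x => x.getD (j + 1) false) g1 fun j _ => hproj (l + 1) (j + 1)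
    have b0 := h1 (l + 1) l c0 (fun _ => 2) (fun x => f (false :: x))
      (fun j x => x.getD (j + 1) false) g0 fun j _ => hproj (l + 1) (j + 1)
    rw [Finset.sum_const, Finset.card_range, smul_eq_mul] at b1 b0
    obtain ⟨t, ht⟩ : ∃ t : ℕ → ℕ, t = fun j => if j = 0 then 2 else
      if j = 1 then c1 + l * 2 else c0 + l * 2 := ⟨_, rfl⟩
    obtain ⟨g, hg⟩ : ∃ g : ℕ → List Bool → Bool, g = fun j x =>
      if j = 0 then x.getD 0 false else
      if j = 1 then f (true :: (List.range l).map fun j => x.getD (j + 1) false) else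
        f (false :: (List.range l).map fun j => x.getD (j + 1) false) := ⟨_, rfl⟩
    have b := h1 (l + 1) 3 8 t _ g hif (by
      intro j hj
      interval_cases j
      · rw [ht, hg]
        exact hproj (l + 1) 0
      · rw [ht, hg]
        exact b1
      · rw [ht, hg]
        exact b0)
    refine ⟨8 + (2 + (c1 + l * 2) + (c0 + l * 2)), ?_, ?_⟩
    · rw [show l + 1 + 4 = (l + 4) + 1 by ring, pow_succ]
      omega
    · have hs : ∑ j ∈ Finset.range 3, t j = 2 + (c1 + l * 2) + (c0 + l * 2) := by
        rw [Finset.sum_range_succ, Finset.sum_range_succ, Finset.sum_range_succ,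
          Finset.sum_range_zero, ht]
        simp
      rw [hs] at b
      refine cm_congr (fun x hx => ?_) b
      obtain ⟨a, y, rfl⟩ : ∃ a y, x = a :: y := by
        rcases x with _ | ⟨a, y⟩
        · simp at hx
        · exact ⟨a, y, rfl⟩
      have hy : y.length = l := by simpa using hx
      have e : ((List.range 3).map fun j => g j (a :: y)) = [a, f (true :: y), f (false :: y)] := by
        have e3 : List.range 3 = [0, 1, 2] := rfl
        rw [e3, hg]
        simp only [List.map_cons, List.map_nil, if_true, List.getD_cons_zero]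
        rw [map_getD l a y hy]
        rfl
      rw [e]
      rcases a with _ | _
      · rfl
      · rfl

theorem pf_ALF (h1 : T_CMC) (h2 : Pool.Agent.H75.OM.T_CMB) : T_ALF := by
  intro l f
  obtain ⟨c, hc, hf⟩ := alf_aux h1 h2 l f
  refine cm_mono ?_ hf
  have : 2 ^ (l + 5) = 2 * 2 ^ (l + 4) := by rw [show l + 5 = (l + 4) + 1 by ring, pow_succ]; ring
  omega

end Pool.Agent.H88.OMN
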