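import Pool.Agent.H75.OM.TD

/-!
# Row ISY of the board `omn_modules`: the oracle with a default exists
-/

set_option autoImplicit false

namespace Pool.Agent.H88.OMN

open Finset Pool.Agent.H6.NB Pool.Agent.H70.OQ Pool.Agent.H70.EH Pool.Agent.H70.EI
open Pool.Agent.H78.XQ Pool.Agent.H75.OM

section

variable (V : ℕ → ATM) (W : ℕ → Hm) (ρ : ℕ → ℕ) (E : Finset Ix)

/-- the string is a position of a block or of a table -/
def Rel (w : List Bool) : Prop :=
  (∃ p, Sum.inl p ∈ E ∧ BPos V p w) ∨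
    ∃ a, Sum.inr a ∈ E ∧ ∃ x : Nn (2 ^ ρ a) ((W a).1 + 1),
      w = false :: nstr (2 ^ ρ a) ((W a).1 + 1) x

open Classical in
/-- the oracle with a default -/
noncomputable def Og (O : (∀ i : {a // a ∈ E}, Cx V W ρ i.1) → List Bool → Bool)
    (P : ∀ i : {a // a ∈ E}, Cx V W ρ i.1) (g : List Bool → Bool) (w : List Bool) : Bool :=
  if Rel V W ρ E w then O P w else g w

variable {V W ρ E}

theorem Og_pos {O : (∀ i : {a // a ∈ E}, Cx V W ρ i.1) → List Bool → Bool}
    {P : ∀ i : {a // a ∈ E}, Cx V W ρ i.1} {g : List Bool → Bool} {w : List Bool}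
    (h : Rel V W ρ E w) : Og V W ρ E O P g w = O P w := by
  unfold Og
  rw [if_pos h]

theorem Og_neg {O : (∀ i : {a // a ∈ E}, Cx V W ρ i.1) → List Bool → Bool}
    {P : ∀ i : {a // a ∈ E}, Cx V W ρ i.1} {g : List Bool → Bool} {w : List Bool}
    (h : ¬ Rel V W ρ E w) : Og V W ρ E O P g w = g w := by
  unfold Og
  rw [if_neg h]

end

theorem pf_ISY (h1 : Pool.Agent.H78.XQ.T_ISX) : T_ISY := by
  intro V W ρ hρ E
  obtain ⟨O, hO⟩ := h1 V W ρ hρ E
  refine ⟨Og V W ρ E O, ⟨fun g => ⟨?_, ?_, ?_, ?_, ?_, ?_⟩, ?_⟩⟩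
  · intro P p h
    rw [← hO.blk P p h]
    funext u v
    exact Og_pos (Or.inl ⟨p, h, Or.inl ⟨u, v.2, v.1, rfl⟩⟩)
  · intro P p h
    rw [← hO.cor P p h]
    funext z
    exact Og_pos (Or.inl ⟨p, h, Or.inr ⟨z, rfl⟩⟩)
  · intro P a h x
    rw [← hO.tab P a h x]
    exact Og_pos (Or.inr ⟨a, h, x, rfl⟩)
  · intro P p h u w
    by_cases hw : Rel V W ρ E w
    · simp only [Og_pos hw]
      exact hO.blkU P p h u w
    · simp only [Og_neg hw]
      exact Or.inl ⟨g w, fun _ => rfl⟩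
  · intro P p h w
    by_cases hw : Rel V W ρ E w
    · simp only [Og_pos hw]
      exact hO.corU P p h w
    · simp only [Og_neg hw]
      exact Or.inl ⟨g w, fun _ => rfl⟩
  · intro P a h w
    by_cases hw : Rel V W ρ E w
    · simp only [Og_pos hw]
      exact hO.tabU P a h w
    · simp only [Og_neg hw]
      exact Or.inl fun _ => trivial
  · intro w hp ha P g
    refine Og_neg ?_
    rintro (⟨p, h, hb⟩ | ⟨a, h, x, hx⟩)
    · exact hp p h hb
    · exact ha a h x hx

end Pool.Agent.H88.OMN
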